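import Pool.Agent.Helper156.Sub.Gen

namespace Pool.Agent.Helper156.Subrank

open scoped BigOperators
open Filter

/-- the rows of the degenerating matrices -/
def row (t : ℂ) (k : Fin 3) : Fin 3 → ℂ :=
  if k = 0 then ![1, 0, t] else if k = 1 then ![0, 1, t] else ![0, 0, t ^ 2]

theorem row_zero (t : ℂ) : row t 0 = ![1, 0, t] := by simp [row]
theorem row_one (t : ℂ) : row t 1 = ![0, 1, t] := by simp [row]
theorem row_two (t : ℂ) : row t 2 = ![0, 0, t ^ 2] := by simp [row]

theorem continuous_row (k i : Fin 3) : Continuous fun t : ℂ => row t k i := by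
  fin_cases k <;> fin_cases i <;> simp [row] <;> fun_prop

/-- the alternating products -/
def E {d : ℕ} (κ : Fin d → Fin 3) (a : ℕ) : ℂ :=
  ∏ j : Fin d, if (j : ℕ) < a then (if κ j = 0 then 1 else 0) else (if κ j = 1 then 1 else 0)

theorem telescope (f : ℕ → ℂ) (N : ℕ) :
    ∑ a ∈ Finset.range N, (-1 : ℂ) ^ a * (f a + f (a + 1)) = f 0 - (-1) ^ N * f N := by
  induction N with
  | zero => simp
  | succ N ih => rw [Finset.sum_range_succ, ih, pow_succ]; ring

theorem bterm_row {d : ℕ} (κ : Fin d → Fin 3) (hκ : ∀ j, κ j = 0 ∨ κ j = 1) (t : ℂ)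
    (a : Fin d) :
    bterm a (fun j => row t (κ j)) = t * (E κ (a : ℕ) + E κ ((a : ℕ) + 1)) := by
  classical
  have h2 : ∀ j, row t (κ j) 2 = t := by
    intro j
    rcases hκ j with h | h <;> simp [h, row]
  have h0 : ∀ j, row t (κ j) 0 = if κ j = 0 then 1 else 0 := by
    intro j
    rcases hκ j with h | h <;> simp [h, row]
  have h1 : ∀ j, row t (κ j) 1 = if κ j = 1 then 1 else 0 := by
    intro j
    rcases hκ j with h | h <;> simp [h, row]
  have e1 : bterm a (fun j => row t (κ j)) = t * ∏ j ∈ Finset.univ.erase a,
      (if j < a then (if κ j = 0 then (1 : ℂ) else 0) else (if κ j = 1 then 1 else 0)) := by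
    unfold bterm
    rw [← Finset.mul_prod_erase _ _ (Finset.mem_univ a)]
    congr 1
    · simp [h2]
    · refine Finset.prod_congr rfl fun j hj => ?_
      have hja := Finset.ne_of_mem_erase hj
      by_cases h : j < a
      · rw [if_pos h, if_pos h]; exact h0 j
      · rw [if_neg h, if_neg h, if_neg hja]; exact h1 j
  have e2 : E κ (a : ℕ) = (if κ a = 1 then (1 : ℂ) else 0) * ∏ j ∈ Finset.univ.erase a,
      (if j < a then (if κ j = 0 then (1 : ℂ) else 0) else (if κ j = 1 then 1 else 0)) := by
    unfold E
    rw [← Finset.mul_prod_erase _ _ (Finset.mem_univ a)]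
    congr 1
    simp
  have e3 : E κ ((a : ℕ) + 1) = (if κ a = 0 then (1 : ℂ) else 0) * ∏ j ∈ Finset.univ.erase a,
      (if j < a then (if κ j = 0 then (1 : ℂ) else 0) else (if κ j = 1 then 1 else 0)) := by
    unfold E
    rw [← Finset.mul_prod_erase _ _ (Finset.mem_univ a)]
    congr 1
    · simp
    · refine Finset.prod_congr rfl fun j hj => ?_
      have hja := Finset.ne_of_mem_erase hj
      have h4 : ((j : ℕ) < (a : ℕ) + 1) ↔ j < a := by
        rw [Nat.lt_succ_iff_lt_or_eq, Fin.lt_def]
        constructor
        · rintro (h | h)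
          · exact h
          · exact absurd (Fin.ext h) hja
        · intro h; exact Or.inl h
      simp only [h4]
  rw [e1, e2, e3]
  rcases hκ a with h | h
  · rw [h]; simp
  · rw [h]; simp

theorem unit_eq {d : ℕ} (κ : Fin d → Fin 3) :
    unitTensor d 3 2 κ = E κ 0 + E κ d := by
  unfold unitTensor E
  rw [Fin.sum_univ_three]
  simp [add_comm]

/-- value on the curve -/
theorem ev_curve {d : ℕ} (hodd : Odd d) (τ : Par d → ℂ) (κ : Fin d → Fin 3)
    (hκ : ∀ j, κ j = 0 ∨ κ j = 1) (t : ℂ) :
    ev (genT τ) (fun j => row t (κ j)) = t * unitTensor d 3 2 κ +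
      t ^ 2 * ∑ p : Par d, (if p.2.1 then 0 else τ p *
        rest p.1.1.1 p.1.1.2 p.2.2 (fun j => row t (κ j))) := by
  have h2 : ∀ j, row t (κ j) 2 = t := by
    intro j
    rcases hκ j with h | h <;> simp [h, row]
  have h01 : ∀ j, row t (κ j) 0 + row t (κ j) 1 = 1 := by
    intro j
    rcases hκ j with h | h <;> simp [h, row]
  rw [ev_genT, unit_eq]
  congr 1
  · have e1 : ∑ a : Fin d, (-1 : ℂ) ^ (a : ℕ) * bterm a (fun j => row t (κ j)) =
        t * ∑ a ∈ Finset.range d, (-1 : ℂ) ^ a * (E κ a + E κ (a + 1)) := by
      rw [Finset.sum_range, Finset.mul_sum]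
      refine Finset.sum_congr rfl fun a _ => ?_
      rw [bterm_row κ hκ]; ring
    rw [e1, telescope, hodd.neg_one_pow]; ring
  · rw [Finset.mul_sum]
    refine Finset.sum_congr rfl fun p _ => ?_
    cases hp : p.2.1
    · simp only [phi, Bool.false_eq_true, if_false, h2]; ring
    · simp only [phi, if_true, h2, h01]; ring

/-- the degenerating matrices -/
noncomputable def hmat (t : ℂ) : Matrix (Fin 3) (Fin 3) ℂ := Matrix.of (row t)

theorem det_hmat (t : ℂ) : (hmat t).det = t ^ 2 := by
  rw [Matrix.det_fin_three]
  simp [hmat, row]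

theorem border_mem {d : ℕ} (hodd : Odd d) (τ : Par d → ℂ) :
    unitTensor d 3 2 ∈ closure (Set.range fun g : Grp d 3 => act g (genT τ)) := by
  classical
  have hd : 0 < d := hodd.pos
  set j0 : Fin d := ⟨0, hd⟩ with hj0
  have hlim : Tendsto (fun (t : ℂ) (κ : Fin d → Fin 3) =>
      t⁻¹ * ev (genT τ) (fun j => row t (κ j))) (nhdsWithin 0 {0}ᶜ) (nhds (unitTensor d 3 2)) := by
    rw [tendsto_pi_nhds]
    intro κ
    by_cases hκ : ∀ j, κ j = 0 ∨ κ j = 1
    · have h1 : Tendsto (fun t : ℂ => unitTensor d 3 2 κ +
          t * ∑ p : Par d, (if p.2.1 then 0 else τ p *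
            rest p.1.1.1 p.1.1.2 p.2.2 (fun j => row t (κ j)))) (nhds 0)
          (nhds (unitTensor d 3 2 κ)) := by
        have hc : Continuous (fun t : ℂ => unitTensor d 3 2 κ +
          t * ∑ p : Par d, (if p.2.1 then 0 else τ p *
            rest p.1.1.1 p.1.1.2 p.2.2 (fun j => row t (κ j)))) := by
          refine continuous_const.add (continuous_id.mul (continuous_finsetSum _ fun p _ => ?_))
          split_ifs
          · exact continuous_const
          · refine continuous_const.mul ?_
            unfold rest
            refine continuous_finsetProd _ fun j _ => ?_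
            split_ifs
            · exact continuous_const
            · exact continuous_row _ _
        have := hc.tendsto 0
        simpa using this
      refine (h1.mono_left nhdsWithin_le_nhds).congr' ?_
      filter_upwards [self_mem_nhdsWithin] with t ht
      have ht' : t ≠ 0 := ht
      rw [ev_curve hodd τ κ hκ]
      field_simp
    · push Not at hκ
      obtain ⟨j1, hj1⟩ := hκ
      have hj2 : κ j1 = 2 := by
        have h1 := hj1.1
        have h2 := hj1.2
        revert h1 h2
        generalize κ j1 = k
        fin_cases k <;> simp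
      have hz : unitTensor d 3 2 κ = 0 := by
        unfold unitTensor
        refine Finset.sum_eq_zero fun i _ => ?_
        split_ifs with hi
        · refine Finset.prod_eq_zero (Finset.mem_univ j1) (if_neg ?_)
          rw [hj2]
          intro h
          rw [← h] at hi
          exact absurd hi (by decide)
        · rfl
      rw [hz]
      have hev : ∀ t : ℂ, ev (genT τ) (fun j => row t (κ j)) = t ^ 2 *
          ev (genT τ) (fun j => if j = j1 then ![0, 0, 1] else row t (κ j)) := by
        intro t
        unfold ev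
        rw [Finset.mul_sum]
        refine Finset.sum_congr rfl fun ι _ => ?_
        rw [← mul_assoc]
        congr 1
        rw [← Finset.mul_prod_erase _ _ (Finset.mem_univ j1),
          ← Finset.mul_prod_erase _ (fun j => (if j = j1 then (![0, 0, 1] : Fin 3 → ℂ)
            else row t (κ j)) (ι j)) (Finset.mem_univ j1), ← mul_assoc]
        congr 1
        · simp only [hj2, row_two, if_true]
          generalize ι j1 = k
          fin_cases k <;> simp
        · refine Finset.prod_congr rfl fun j hj => ?_
          rw [if_neg (Finset.ne_of_mem_erase hj)]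
      have hc : Continuous (fun t : ℂ => t * ev (genT τ)
          (fun j => if j = j1 then ![0, 0, 1] else row t (κ j))) := by
        refine continuous_id.mul ?_
        unfold ev
        refine continuous_finsetSum _ fun ι _ => Continuous.mul ?_ continuous_const
        refine continuous_finsetProd _ fun j _ => ?_
        by_cases h : j = j1
        · simp only [h, if_true]; exact continuous_const
        · simp only [h, if_false]; exact continuous_row _ _
      have h1 := hc.tendsto 0
      rw [zero_mul] at h1
      refine (h1.mono_left nhdsWithin_le_nhds).congr' ?_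
      filter_upwards [self_mem_nhdsWithin] with t ht
      have ht' : t ≠ 0 := ht
      rw [hev]
      field_simp
  refine mem_closure_of_tendsto hlim ?_
  filter_upwards [self_mem_nhdsWithin] with t ht
  have ht' : t ≠ 0 := ht
  have hdet : ∀ j : Fin d, ((if j = j0 then t⁻¹ else 1 : ℂ) • hmat t).det ≠ 0 := by
    intro j
    rw [Matrix.det_smul, det_hmat]
    refine mul_ne_zero (pow_ne_zero _ ?_) (pow_ne_zero _ ht')
    split_ifs
    · exact inv_ne_zero ht'
    · exact one_ne_zero
  refine ⟨fun j => Matrix.GeneralLinearGroup.mkOfDetNeZero _ (hdet j), ?_⟩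
  funext κ
  change ∑ ι : Fin d → Fin 3, (∏ j, ((if j = j0 then t⁻¹ else 1 : ℂ) • hmat t) (κ j) (ι j)) *
    genT τ ι = _
  unfold ev
  rw [Finset.mul_sum]
  refine Finset.sum_congr rfl fun ι _ => ?_
  rw [← mul_assoc]
  congr 1
  simp only [Matrix.smul_apply, smul_eq_mul]
  rw [Finset.prod_mul_distrib, Finset.prod_ite_eq']
  simp [hmat]

end Pool.Agent.Helper156.Subrank
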