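import Pool.Agent.Helper156.Sub.Gen

namespace Pool.Agent.Helper156.Subrank

open scoped BigOperators

/-- the matrix entries as one family -/
def yfam {d : ℕ} (u v : Fin d → Fin 3 → ℂ) : Bool × Fin d × Fin 3 → ℂ :=
  fun q => if q.1 then u q.2.1 q.2.2 else v q.2.1 q.2.2

theorem pick_mem {d : ℕ} (u v : Fin d → Fin 3 → ℂ) (σ : Fin d → Bool) (j : Fin d) (i : Fin 3) :
    pick u v σ j i ∈ IntermediateField.adjoin ℚ (Set.range (yfam u v)) := by
  refine IntermediateField.subset_adjoin _ _ ⟨(σ j, j, i), ?_⟩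
  simp only [yfam, pick]
  cases σ j <;> simp

theorem sum_rest {d : ℕ} (u v n m : Fin d → Fin 3 → ℂ)
    (hnu : ∀ j, ∑ i, u j i * n j i = 1) (hnv : ∀ j, ∑ i, v j i * n j i = 0)
    (hmu : ∀ j, ∑ i, u j i * m j i = 0) (hmv : ∀ j, ∑ i, v j i * m j i = 1)
    (a b : Fin d) (σ σ0 : Fin d → Bool) (ha : σ a = σ0 a) (hb : σ b = σ0 b) :
    ∑ κ : Fin d → Fin 3, (∏ j, (if j = a ∨ j = b then cV 0 else
      (if σ0 j then n j else m j)) (κ j)) * rest a b κ (pick u v σ) =
      if σ = σ0 then 1 else 0 := by
  classical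
  unfold rest
  simp only [← Finset.prod_mul_distrib]
  rw [← prod_sum_eq (fun j i => (if j = a ∨ j = b then cV 0 else
      (if σ0 j then n j else m j)) i * (if j = a ∨ j = b then 1 else pick u v σ j i))]
  have h1 : ∀ j, ∑ i, (if j = a ∨ j = b then cV 0 else
      (if σ0 j then n j else m j)) i * (if j = a ∨ j = b then 1 else pick u v σ j i) =
      if σ j = σ0 j then 1 else 0 := by
    intro j
    by_cases hj : j = a ∨ j = b
    · have : σ j = σ0 j := by
        rcases hj with rfl | rfl
        · exact ha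
        · exact hb
      simp [hj, this, cV]
    · simp only [if_neg hj, pick]
      cases h2 : σ j <;> cases h3 : σ0 j
      · simp only [Bool.false_eq_true, if_false, if_true]
        rw [← hmv j]; exact Finset.sum_congr rfl fun i _ => mul_comm _ _
      · simp only [Bool.false_eq_true, if_false, if_true]
        rw [← hnv j]; exact Finset.sum_congr rfl fun i _ => mul_comm _ _
      · simp only [Bool.false_eq_true, if_false, if_true, Bool.true_eq_false]
        rw [← hmu j]; exact Finset.sum_congr rfl fun i _ => mul_comm _ _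
      · simp only [if_true]
        rw [← hnu j]; exact Finset.sum_congr rfl fun i _ => mul_comm _ _
  rw [Finset.prod_congr rfl fun j _ => h1 j]
  by_cases h : σ = σ0
  · subst h; simp
  · rw [if_neg h]
    obtain ⟨j, hj⟩ : ∃ j, σ j ≠ σ0 j := by
      by_contra hc
      push Not at hc
      exact h (funext hc)
    exact Finset.prod_eq_zero (Finset.mem_univ j) (if_neg hj)

theorem class_bound {d : ℕ} (τ : Par d → ℂ) (hτ : AlgebraicIndependent ℚ τ)
    (u v n m : Fin d → Fin 3 → ℂ)
    (hnu : ∀ j, ∑ i, u j i * n j i = 1) (hnv : ∀ j, ∑ i, v j i * n j i = 0)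
    (hmu : ∀ j, ∑ i, u j i * m j i = 0) (hmv : ∀ j, ∑ i, v j i * m j i = 1)
    (a b : Fin d) (hab : a ≠ b) (ty α β : Bool)
    (hφ : phi ty (if α then u a else v a) (if β then u b else v b) ≠ 0)
    (S : Finset (Fin d → Bool))
    (hS : ∀ σ ∈ S, σ a = α ∧ σ b = β ∧ ev (genT τ) (pick u v σ) = 0) :
    S.card ≤ 6 * d + 1 := by
  classical
  have key := rows_bound (R := S) τ hτ (yfam u v)
    (fun σ p => phi p.2.1 (pick u v σ p.1.1.1) (pick u v σ p.1.1.2) *
      rest p.1.1.1 p.1.1.2 p.2.2 (pick u v σ))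
    (fun σ => - ∑ a : Fin d, (-1 : ℂ) ^ (a : ℕ) * bterm a (pick u v σ))
    ?_ ?_ ?_ ?_
  · have e1 : Fintype.card S = S.card := Fintype.card_coe S
    have e2 : Fintype.card (Bool × Fin d × Fin 3) = 6 * d := by
      simp [Fintype.card_prod]; ring
    rw [e1, e2] at key
    exact key
  · intro σ p
    refine mul_mem ?_ ?_
    · cases p.2.1
      · simp only [phi, Bool.false_eq_true, if_false]
        exact mul_mem (pick_mem _ _ _ _ _) (pick_mem _ _ _ _ _)
      · simp only [phi, if_true]
        exact sub_mem (mul_mem (pick_mem _ _ _ _ _) (add_mem (pick_mem _ _ _ _ _)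
          (pick_mem _ _ _ _ _))) (mul_mem (add_mem (pick_mem _ _ _ _ _)
          (pick_mem _ _ _ _ _)) (pick_mem _ _ _ _ _))
    · unfold rest
      refine prod_mem fun j _ => ?_
      split_ifs
      · exact one_mem _
      · exact pick_mem _ _ _ _ _
  · intro σ
    refine neg_mem (sum_mem fun a _ => mul_mem (pow_mem (neg_mem (one_mem _)) _) ?_)
    unfold bterm
    refine prod_mem fun j _ => ?_
    split_ifs <;> exact pick_mem _ _ _ _ _
  · intro w hw σ0
    have h1 : ∀ κ : Fin d → Fin 3, ∑ σ : S, w σ * rest a b κ (pick u v σ) = 0 := by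
      intro κ
      have h2 := hw (⟨(a, b), hab⟩, ty, κ)
      simp only at h2
      have h3 : ∀ σ : S, w σ * (phi ty (pick u v σ a) (pick u v σ b) *
          rest a b κ (pick u v σ)) = phi ty (if α then u a else v a) (if β then u b else v b) *
          (w σ * rest a b κ (pick u v σ)) := by
        intro σ
        obtain ⟨hσa, hσb, -⟩ := hS σ σ.2
        have e1 : pick u v σ a = (if α then u a else v a) := by simp [pick, hσa]
        have e2 : pick u v σ b = (if β then u b else v b) := by simp [pick, hσb]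
        rw [e1, e2]; ring
      rw [Finset.sum_congr rfl fun σ _ => h3 σ, ← Finset.mul_sum] at h2
      exact (mul_eq_zero.mp h2).resolve_left hφ
    have h4 : ∑ κ : Fin d → Fin 3, (∏ j, (if j = a ∨ j = b then cV 0 else
      (if (σ0 : Fin d → Bool) j then n j else m j)) (κ j)) *
        ∑ σ : S, w σ * rest a b κ (pick u v σ) = 0 := by
      refine Finset.sum_eq_zero fun κ _ => ?_
      rw [h1 κ, mul_zero]
    simp only [Finset.mul_sum] at h4
    rw [Finset.sum_comm] at h4
    have h5 : ∀ σ : S, ∑ κ : Fin d → Fin 3, (∏ j, (if j = a ∨ j = b then cV 0 else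
      (if (σ0 : Fin d → Bool) j then n j else m j)) (κ j)) *
        (w σ * rest a b κ (pick u v σ)) = if σ = σ0 then w σ else 0 := by
      intro σ
      have h6 := sum_rest u v n m hnu hnv hmu hmv a b σ σ0
        ((hS σ σ.2).1.trans (hS σ0 σ0.2).1.symm) ((hS σ σ.2).2.1.trans (hS σ0 σ0.2).2.1.symm)
      have h7 : ∑ κ : Fin d → Fin 3, (∏ j, (if j = a ∨ j = b then cV 0 else
        (if (σ0 : Fin d → Bool) j then n j else m j)) (κ j)) *
          (w σ * rest a b κ (pick u v σ)) = w σ *
          ∑ κ : Fin d → Fin 3, (∏ j, (if j = a ∨ j = b then cV 0 else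
        (if (σ0 : Fin d → Bool) j then n j else m j)) (κ j)) * rest a b κ (pick u v σ) := by
        rw [Finset.mul_sum]
        exact Finset.sum_congr rfl fun κ _ => by ring
      rw [h7, h6]
      by_cases h : σ = σ0
      · subst h; simp
      · have h' : (σ : Fin d → Bool) ≠ σ0 := fun h2 => h (Subtype.ext h2)
        rw [if_neg h, if_neg h', mul_zero]
    rw [Finset.sum_congr rfl fun σ _ => h5 σ, Finset.sum_ite_eq' Finset.univ σ0] at h4
    simpa using h4
  · intro σ
    have h1 := (hS σ σ.2).2.2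
    rw [ev_genT] at h1
    rw [eq_neg_iff_add_eq_zero, add_comm, ← h1]
    congr 1
    exact Finset.sum_congr rfl fun p _ => mul_comm _ _

end Pool.Agent.Helper156.Subrank
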