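import Mathlib

namespace Pool.Agent.Helper156.Subrank

open scoped BigOperators

/-- The space `(ℂⁿ)^{⊗ d}` in coordinates: `T κ` is the coefficient of
`e_{κ 1} ⊗ ⋯ ⊗ e_{κ d}`. -/
abbrev Tensor (d n : ℕ) : Type := (Fin d → Fin n) → ℂ

/-- The group `GL_n(ℂ)^d`. -/
abbrev Grp (d n : ℕ) : Type := Fin d → Matrix.GeneralLinearGroup (Fin n) ℂ

/-- The action `(g₁, …, g_d) · T = (g₁ ⊗ ⋯ ⊗ g_d) T`. -/
def act {d n : ℕ} (g : Grp d n) (T : Tensor d n) : Tensor d n :=
  fun κ => ∑ ι : Fin d → Fin n,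
    (∏ j, (g j : Matrix (Fin n) (Fin n) ℂ) (κ j) (ι j)) * T ι

/-- The unit tensor `I_r = ∑_{i < r} e_i ⊗ ⋯ ⊗ e_i`. -/
def unitTensor (d n r : ℕ) : Tensor d n :=
  fun κ => ∑ i : Fin n, if (i : ℕ) < r then ∏ j : Fin d, (if κ j = i then (1 : ℂ) else 0) else 0

/-- A homomorphism `ℂ* → GL_n(ℂ)^d` of algebraic groups: a group homomorphism all of whose
matrix entries are Laurent polynomials in `t`. -/
def IsOnePS {d n : ℕ} (lam : ℂˣ →* Grp d n) : Prop :=
  ∀ j : Fin d, ∃ (K : Finset ℤ) (M : ℤ → Matrix (Fin n) (Fin n) ℂ), ∀ t : ℂˣ,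
    ((lam t j : Matrix.GeneralLinearGroup (Fin n) ℂ) : Matrix (Fin n) (Fin n) ℂ) =
      ∑ k ∈ K, ((t ^ k : ℂˣ) : ℂ) • M k

/-- `λ(t) · T → L` as `t → 0`. -/
def LimZero {d n : ℕ} (lam : ℂˣ →* Grp d n) (T L : Tensor d n) : Prop :=
  Filter.Tendsto (fun t : ℂˣ => act (lam t) T)
    (Filter.comap (fun t : ℂˣ => (t : ℂ)) (nhds 0)) (nhds L)

/-- Border subrank: the largest `r ≤ n` such that `I_r` lies in the closure of `G · T`. -/
noncomputable def borderSubrank {d n : ℕ} (T : Tensor d n) : ℕ :=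
  sSup {r : ℕ | r ≤ n ∧ unitTensor d n r ∈ closure (Set.range fun g : Grp d n => act g T)}

/-- Hilbert-Mumford subrank, literally as in the problem: the largest `r ≤ n` for which some
one-parameter subgroup has `λ(t) · T → I_r`. -/
noncomputable def hmSubrankLit {d n : ℕ} (T : Tensor d n) : ℕ :=
  sSup {r : ℕ | r ≤ n ∧ ∃ lam : ℂˣ →* Grp d n, IsOnePS lam ∧ LimZero lam T (unitTensor d n r)}

/-- Hilbert-Mumford subrank, in its coordinate free form: the largest `r ≤ n` for which some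
one-parameter subgroup moves `T` to a point of the orbit `G · I_r`. -/
noncomputable def hmSubrank {d n : ℕ} (T : Tensor d n) : ℕ :=
  sSup {r : ℕ | r ≤ n ∧ ∃ lam : ℂˣ →* Grp d n, IsOnePS lam ∧
    ∃ g : Grp d n, LimZero lam T (act g (unitTensor d n r))}

/-- The value of `T`, seen as a multilinear form, at the row vectors `z`. -/
def ev {d n : ℕ} (T : Tensor d n) (z : Fin d → Fin n → ℂ) : ℂ :=
  ∑ ι : Fin d → Fin n, (∏ j, z j (ι j)) * T ι

theorem act_apply {d n : ℕ} (g : Grp d n) (T : Tensor d n) (κ : Fin d → Fin n) :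
    act g T κ = ev T (fun j => (g j : Matrix (Fin n) (Fin n) ℂ) (κ j)) := rfl

theorem prod_sum_eq {d n : ℕ} (f : Fin d → Fin n → ℂ) :
    ∏ j, ∑ i, f j i = ∑ κ : Fin d → Fin n, ∏ j, f j (κ j) := by
  rw [Finset.prod_univ_sum, Fintype.piFinset_univ]

/-- evaluating a transformed tensor -/
theorem ev_act {d n : ℕ} (g : Grp d n) (T : Tensor d n) (z : Fin d → Fin n → ℂ) :
    ev (act g T) z = ev T (fun j => Matrix.vecMul (z j) (g j : Matrix (Fin n) (Fin n) ℂ)) := by
  unfold ev act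
  simp only [Matrix.vecMul, dotProduct, Finset.mul_sum]
  rw [Finset.sum_comm]
  refine Finset.sum_congr rfl fun ι _ => ?_
  rw [prod_sum_eq (fun j i => z j i * (g j : Matrix (Fin n) (Fin n) ℂ) i (ι j)), Finset.sum_mul]
  refine Finset.sum_congr rfl fun κ _ => ?_
  rw [Finset.prod_mul_distrib]
  ring

theorem act_mul {d n : ℕ} (g h : Grp d n) (T : Tensor d n) :
    act (g * h) T = act g (act h T) := by
  funext κ
  rw [act_apply, act_apply, ev_act]
  congr 1

theorem act_one {d n : ℕ} (T : Tensor d n) : act (1 : Grp d n) T = T := by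
  funext κ
  unfold act
  rw [Finset.sum_eq_single κ]
  · simp
  · intro ι _ hι
    obtain ⟨j, hj⟩ : ∃ j, κ j ≠ ι j := by
      by_contra h
      push Not at h
      exact hι (funext fun j => (h j).symm)
    rw [Finset.prod_eq_zero (Finset.mem_univ j)]
    · simp
    · simp [Matrix.one_apply_ne hj]
  · simp

theorem continuous_act {d n : ℕ} (g : Grp d n) : Continuous (act g) := by
  unfold act
  fun_prop

theorem continuous_ev {d n : ℕ} (z : Fin d → Fin n → ℂ) :
    Continuous (fun T : Tensor d n => ev T z) := by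
  unfold ev
  fun_prop

/-- the pure tensor -/
def pureT {d n : ℕ} (p : Fin d → Fin n → ℂ) : Tensor d n := fun ι => ∏ j, p j (ι j)

theorem ev_pureT {d n : ℕ} (p z : Fin d → Fin n → ℂ) :
    ev (pureT p) z = ∏ j, ∑ i, z j i * p j i := by
  unfold ev pureT
  rw [prod_sum_eq]
  refine Finset.sum_congr rfl fun κ _ => ?_
  rw [Finset.prod_mul_distrib]

theorem ev_add {d n : ℕ} (S T : Tensor d n) (z : Fin d → Fin n → ℂ) :
    ev (S + T) z = ev S z + ev T z := by
  unfold ev
  rw [← Finset.sum_add_distrib]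
  refine Finset.sum_congr rfl fun κ _ => ?_
  rw [Pi.add_apply]; ring

theorem ev_sub {d n : ℕ} (S T : Tensor d n) (z : Fin d → Fin n → ℂ) :
    ev (S - T) z = ev S z - ev T z := by
  unfold ev
  rw [← Finset.sum_sub_distrib]
  refine Finset.sum_congr rfl fun κ _ => ?_
  rw [Pi.sub_apply]; ring

theorem ev_smul {d n : ℕ} (c : ℂ) (T : Tensor d n) (z : Fin d → Fin n → ℂ) :
    ev (c • T) z = c * ev T z := by
  unfold ev
  rw [Finset.mul_sum]
  refine Finset.sum_congr rfl fun κ _ => ?_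
  rw [Pi.smul_apply, smul_eq_mul]; ring

theorem ev_sum {d n : ℕ} {A : Type} (s : Finset A) (F : A → Tensor d n)
    (z : Fin d → Fin n → ℂ) : ev (∑ a ∈ s, F a) z = ∑ a ∈ s, ev (F a) z := by
  classical
  induction s using Finset.induction_on with
  | empty => simp [ev]
  | insert a s ha ih => rw [Finset.sum_insert ha, Finset.sum_insert ha, ev_add, ih]

end Pool.Agent.Helper156.Subrank
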