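import Mathlib

namespace Pool.Agent.Helper156.Subrank

open scoped BigOperators

/-- A family algebraically independent over `ℚ` inside `ℚ(S)` has at most `#S` members. -/
theorem card_le_of_mem_adjoin {P : Type} [Fintype P] (τ : P → ℂ) (hτ : AlgebraicIndependent ℚ τ)
    (S : Finset ℂ) (h : ∀ p, τ p ∈ IntermediateField.adjoin ℚ (S : Set ℂ)) :
    Fintype.card P ≤ S.card := by
  classical
  have hinj : Function.Injective τ := hτ.injective
  have hind : (AlgebraicIndependent.matroid ℚ ℂ).Indep (Set.range τ) := by
    rw [AlgebraicIndependent.matroid_indep_iff]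
    exact hτ.coe_range
  have hsub : Set.range τ ⊆ (AlgebraicIndependent.matroid ℚ ℂ).closure (S : Set ℂ) := by
    rw [AlgebraicIndependent.matroid_closure_eq]
    rintro _ ⟨p, rfl⟩
    obtain ⟨r, hr, s, hs, h2⟩ := IntermediateField.mem_adjoin_iff_div.mp (h p)
    have e1 : IsAlgebraic (Algebra.adjoin ℚ (S : Set ℂ)) r :=
      isAlgebraic_algebraMap (⟨r, hr⟩ : Algebra.adjoin ℚ (S : Set ℂ))
    have e2 : IsAlgebraic (Algebra.adjoin ℚ (S : Set ℂ)) s :=
      isAlgebraic_algebraMap (⟨s, hs⟩ : Algebra.adjoin ℚ (S : Set ℂ))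
    rw [SetLike.mem_coe, Subalgebra.mem_algebraicClosure, h2, div_eq_mul_inv]
    exact e1.mul e2.inv
  have h1 := hind.encard_le_eRk_of_subset hsub
  rw [Matroid.eRk_closure_eq] at h1
  have h2 := h1.trans (Matroid.eRk_le_encard _ _)
  rw [← Set.image_univ, hinj.encard_image, Set.encard_univ, Set.encard_coe_eq_coe_finsetCard] at h2
  simpa using h2

/-- Linear equations with coefficients in `ℚ(y)` satisfied by an algebraically independent
family: at most `#y + 1` of them are linearly independent. -/
theorem rows_bound {P Y R : Type} [Fintype P] [Fintype Y] [Fintype R]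
    (τ : P → ℂ) (hτ : AlgebraicIndependent ℚ τ) (y : Y → ℂ)
    (c : R → P → ℂ) (f : R → ℂ)
    (hc : ∀ r p, c r p ∈ IntermediateField.adjoin ℚ (Set.range y))
    (hf : ∀ r, f r ∈ IntermediateField.adjoin ℚ (Set.range y))
    (hlin : ∀ w : R → ℂ, (∀ p, ∑ r, w r * c r p = 0) → ∀ r, w r = 0)
    (heq : ∀ r, ∑ p, c r p * τ p = f r) :
    Fintype.card R ≤ Fintype.card Y + 1 := by
  classical
  set K := IntermediateField.adjoin ℚ (Set.range y) with hK
  let Ψ : ((P → K) × K) →ₗ[K] ℂ :=
    { toFun := fun a => ∑ p, (a.1 p : ℂ) * τ p + (a.2 : ℂ)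
      map_add' := by
        intro a b
        simp only [Prod.fst_add, Pi.add_apply, Prod.snd_add]
        push_cast
        simp only [add_mul, Finset.sum_add_distrib]
        ring
      map_smul' := by
        intro k a
        simp only [Prod.smul_fst, Pi.smul_apply, Prod.smul_snd, smul_eq_mul, RingHom.id_apply]
        push_cast
        rw [Algebra.smul_def, mul_add, Finset.mul_sum]
        congr 1
        refine Finset.sum_congr rfl fun p _ => ?_
        change _ = (k : ℂ) * _
        ring }
  -- kernel vectors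
  let ker : R → LinearMap.ker Ψ := fun r =>
    ⟨(fun p => ⟨c r p, hc r p⟩, ⟨- f r, neg_mem (hf r)⟩), by
      rw [LinearMap.mem_ker]
      change ∑ p, (c r p) * τ p + (- f r) = 0
      rw [heq r]; ring⟩
  have hli : LinearIndependent K ker := by
    rw [Fintype.linearIndependent_iff]
    intro g hg r
    have h1 : ∀ p, ∑ r, (g r : ℂ) * c r p = 0 := by
      intro p
      have h2 := congrArg (fun v : LinearMap.ker Ψ => ((v.1.1 p : K) : ℂ)) hg
      simp only [Submodule.coe_sum, Submodule.coe_smul, Submodule.coe_zero,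
        Prod.fst_sum, Finset.sum_apply, Prod.smul_fst, Pi.smul_apply, Prod.fst_zero,
        Pi.zero_apply, smul_eq_mul] at h2
      push_cast at h2
      exact h2
    have h3 := hlin (fun r => (g r : ℂ)) h1 r
    exact_mod_cast h3
  have hker : Fintype.card R ≤ Module.finrank K (LinearMap.ker Ψ) :=
    hli.fintype_card_le_finrank
  have hrn := LinearMap.finrank_range_add_finrank_ker Ψ
  have hdim : Module.finrank K ((P → K) × K) = Fintype.card P + 1 := by
    rw [Module.finrank_prod]; simp
  -- basis of the range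
  set V := LinearMap.range Ψ with hV
  let b := Module.finBasis K V
  let S : Finset ℂ := (Finset.univ.image y) ∪ (Finset.univ.image (fun i => (b i : ℂ)))
  have hScard : S.card ≤ Fintype.card Y + Module.finrank K V := by
    refine (Finset.card_union_le _ _).trans ?_
    refine add_le_add (Finset.card_image_le.trans (by simp)) (Finset.card_image_le.trans (by simp))
  have hmem : ∀ p, τ p ∈ IntermediateField.adjoin ℚ (S : Set ℂ) := by
    intro p
    have h1 : τ p ∈ V := by
      refine ⟨(Pi.single p 1, 0), ?_⟩
      change ∑ q, (((Pi.single p 1 : P → K) q : K) : ℂ) * τ q + ((0 : K) : ℂ) = τ p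
      rw [Finset.sum_eq_single p]
      · simp
      · intro q _ hq
        simp [Pi.single_eq_of_ne hq]
      · simp
    have h2 := b.sum_repr ⟨τ p, h1⟩
    have h3 := congrArg (fun v : V => (v : ℂ)) h2
    simp only [Submodule.coe_sum, Submodule.coe_smul] at h3
    rw [← h3]
    refine sum_mem fun i _ => ?_
    have h4 : ((b.repr ⟨τ p, h1⟩ i : K) : ℂ) ∈ IntermediateField.adjoin ℚ (S : Set ℂ) := by
      have h5 : K ≤ IntermediateField.adjoin ℚ (S : Set ℂ) := by
        rw [hK]
        refine IntermediateField.adjoin.mono _ _ _ ?_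
        rintro _ ⟨q, rfl⟩
        simp only [S, Finset.coe_union, Finset.coe_image, Finset.coe_univ, Set.image_univ]
        exact Or.inl ⟨q, rfl⟩
      exact h5 (b.repr ⟨τ p, h1⟩ i).2
    have h6 : (b i : ℂ) ∈ IntermediateField.adjoin ℚ (S : Set ℂ) := by
      refine IntermediateField.subset_adjoin _ _ ?_
      simp only [S, Finset.coe_union, Finset.coe_image, Finset.coe_univ, Set.image_univ]
      exact Or.inr ⟨i, rfl⟩
    have h7 := mul_mem h4 h6
    rw [Algebra.smul_def]
    exact h7
  have hfin := card_le_of_mem_adjoin τ hτ S hmem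
  rw [hdim] at hrn
  omega

/-- There are arbitrarily large finite families of complex numbers algebraically independent
over `ℚ`. -/
theorem exists_algInd (P : Type) [Fintype P] : ∃ τ : P → ℂ, AlgebraicIndependent ℚ τ := by
  classical
  obtain ⟨s, hs⟩ := exists_isTranscendenceBasis ℚ ℂ
  have h1 : Cardinal.mk ℂ = Cardinal.mk s :=
    IsAlgClosed.cardinal_eq_cardinal_transcendence_basis_of_aleph0_lt' _ hs
      (by simp) (by rw [Cardinal.mk_complex]; exact Cardinal.aleph0_lt_continuum)
  have h2 : Infinite s := by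
    rw [Cardinal.infinite_iff, ← h1, Cardinal.mk_complex]
    exact Cardinal.aleph0_le_continuum
  obtain ⟨e⟩ : Nonempty (P ↪ s) := by
    have := (Infinite.natEmbedding s)
    exact ⟨(Fintype.equivFin P).toEmbedding.trans (Fin.valEmbedding.trans this)⟩
  exact ⟨_, hs.1.comp e e.injective⟩

end Pool.Agent.Helper156.Subrank
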