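import Pool.Agent.Helper156.Sub.Defs
import Pool.Agent.Helper156.Sub.Trdeg

namespace Pool.Agent.Helper156.Subrank

open scoped BigOperators

/-- the functional `ω` -/
def omV : Fin 3 → ℂ := fun i => if i = 2 then 1 else 0
/-- the functional `s` -/
def smV : Fin 3 → ℂ := fun i => if i = 2 then 0 else 1
/-- coordinate functional -/
def cV (k : Fin 3) : Fin 3 → ℂ := fun i => if i = k then 1 else 0

theorem dot_omV (z : Fin 3 → ℂ) : ∑ i, z i * omV i = z 2 := by
  simp [omV]
theorem dot_smV (z : Fin 3 → ℂ) : ∑ i, z i * smV i = z 0 + z 1 := by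
  simp [smV, Fin.sum_univ_three]
theorem dot_cV (z : Fin 3 → ℂ) (k : Fin 3) : ∑ i, z i * cV k i = z k := by
  simp [cV]

/-- The index set of the parameters. -/
abbrev Par (d : ℕ) : Type := {p : Fin d × Fin d // p.1 ≠ p.2} × Bool × (Fin d → Fin 3)

/-- two special slots -/
def Bt {d : ℕ} (a b : Fin d) (fa fb : Fin 3 → ℂ) (κ : Fin d → Fin 3) : Tensor d 3 :=
  pureT (fun j => if j = a then fa else if j = b then fb else cV (κ j))

/-- the part of the product away from `a, b` -/
def rest {d : ℕ} (a b : Fin d) (κ : Fin d → Fin 3) (z : Fin d → Fin 3 → ℂ) : ℂ :=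
  ∏ j, if j = a ∨ j = b then 1 else z j (κ j)

theorem ev_Bt {d : ℕ} (a b : Fin d) (hab : a ≠ b) (fa fb : Fin 3 → ℂ) (κ : Fin d → Fin 3)
    (z : Fin d → Fin 3 → ℂ) :
    ev (Bt a b fa fb κ) z = (∑ i, z a i * fa i) * (∑ i, z b i * fb i) * rest a b κ z := by
  classical
  unfold Bt rest
  rw [ev_pureT]
  have h1 : ∀ j : Fin d, (∑ i, z j i * (if j = a then fa else if j = b then fb else cV (κ j)) i)
      = (if j = a then (∑ i, z a i * fa i) else 1) * ((if j = b then (∑ i, z b i * fb i) else 1) *
        (if j = a ∨ j = b then 1 else z j (κ j))) := by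
    intro j
    by_cases hja : j = a
    · subst hja
      simp [hab]
    · by_cases hjb : j = b
      · subst hjb
        simp [hja]
      · simp [hja, hjb, dot_cV]
  rw [Finset.prod_congr rfl fun j _ => h1 j, Finset.prod_mul_distrib, Finset.prod_mul_distrib,
    Finset.prod_ite_eq', Finset.prod_ite_eq']
  simp only [Finset.mem_univ, if_true]
  ring

/-- The tensor attached to a parameter. -/
def Bp {d : ℕ} (p : Par d) : Tensor d 3 :=
  if p.2.1 then Bt p.1.1.1 p.1.1.2 omV smV p.2.2 - Bt p.1.1.1 p.1.1.2 smV omV p.2.2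
  else Bt p.1.1.1 p.1.1.2 omV omV p.2.2

/-- the two bilinear factors -/
def phi (ty : Bool) (x y : Fin 3 → ℂ) : ℂ :=
  if ty then x 2 * (y 0 + y 1) - (x 0 + x 1) * y 2 else x 2 * y 2

theorem ev_Bp {d : ℕ} (p : Par d) (z : Fin d → Fin 3 → ℂ) :
    ev (Bp p) z = phi p.2.1 (z p.1.1.1) (z p.1.1.2) * rest p.1.1.1 p.1.1.2 p.2.2 z := by
  obtain ⟨⟨⟨a, b⟩, hab⟩, ty, κ⟩ := p
  cases ty
  · simp only [Bp, phi, Bool.false_eq_true, if_false]
    rw [ev_Bt _ _ hab, dot_omV, dot_omV]
  · simp only [Bp, phi, if_true]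
    rw [ev_sub, ev_Bt _ _ hab, ev_Bt _ _ hab, dot_omV, dot_omV, dot_smV, dot_smV]
    ring

/-- the fixed part of the tensor -/
def base (d : ℕ) : Tensor d 3 :=
  ∑ a : Fin d, ((-1 : ℂ) ^ (a : ℕ)) •
    pureT (fun j => if j < a then cV 0 else if j = a then cV 2 else cV 1)

/-- one term of the base form -/
def bterm {d : ℕ} (a : Fin d) (z : Fin d → Fin 3 → ℂ) : ℂ :=
  ∏ j, if j < a then z j 0 else if j = a then z j 2 else z j 1

theorem ev_base {d : ℕ} (z : Fin d → Fin 3 → ℂ) :
    ev (base d) z = ∑ a : Fin d, (-1 : ℂ) ^ (a : ℕ) * bterm a z := by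
  unfold base
  rw [ev_sum]
  refine Finset.sum_congr rfl fun a _ => ?_
  rw [ev_smul, ev_pureT]
  unfold bterm
  congr 1
  refine Finset.prod_congr rfl fun j _ => ?_
  by_cases h1 : j < a
  · simp [h1, dot_cV]
  · by_cases h2 : j = a
    · simp [h2, dot_cV]
    · simp [h1, h2, dot_cV]

/-- The tensor with parameters `τ`. -/
def genT {d : ℕ} (τ : Par d → ℂ) : Tensor d 3 := base d + ∑ p, τ p • Bp p

theorem ev_genT {d : ℕ} (τ : Par d → ℂ) (z : Fin d → Fin 3 → ℂ) :
    ev (genT τ) z = (∑ a : Fin d, (-1 : ℂ) ^ (a : ℕ) * bterm a z) +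
      ∑ p : Par d, τ p * (phi p.2.1 (z p.1.1.1) (z p.1.1.2) * rest p.1.1.1 p.1.1.2 p.2.2 z) := by
  unfold genT
  rw [ev_add, ev_base, ev_sum]
  congr 1
  refine Finset.sum_congr rfl fun p _ => ?_
  rw [ev_smul, ev_Bp]

/-- the choice between `u` and `v` -/
def pick {d : ℕ} (u v : Fin d → Fin 3 → ℂ) (σ : Fin d → Bool) : Fin d → Fin 3 → ℂ :=
  fun j => if σ j then u j else v j

/-- If all but the `j`-th vector are killed by `ω`, the value is proportional to `ω(z_j)`. -/
theorem prop_off {d : ℕ} (τ : Par d → ℂ) (j : Fin d) (z z' : Fin d → Fin 3 → ℂ)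
    (h : ∀ i, i ≠ j → z i = z' i) (h0 : ∀ i, i ≠ j → z i 2 = 0) :
    z' j 2 * ev (genT τ) z = z j 2 * ev (genT τ) z' := by
  classical
  have h0' : ∀ i, i ≠ j → z' i 2 = 0 := fun i hi => by rw [← h i hi]; exact h0 i hi
  rw [ev_genT, ev_genT, mul_add, mul_add, Finset.mul_sum, Finset.mul_sum, Finset.mul_sum,
    Finset.mul_sum]
  congr 1
  · refine Finset.sum_congr rfl fun a _ => ?_
    by_cases haj : a = j
    · subst haj
      have e : ∀ w : Fin d → Fin 3 → ℂ, bterm a w = w a 2 *
          ∏ i, (if i < a then w i 0 else if i = a then 1 else w i 1) := by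
        intro w
        unfold bterm
        have : ∀ i : Fin d, (if i < a then w i 0 else if i = a then w i 2 else w i 1) =
            (if i = a then w a 2 else 1) *
              (if i < a then w i 0 else if i = a then 1 else w i 1) := by
          intro i
          by_cases h2 : i = a
          · subst h2; simp
          · simp [h2]
        rw [Finset.prod_congr rfl fun i _ => this i, Finset.prod_mul_distrib,
          Finset.prod_ite_eq']
        simp
      rw [e z, e z']
      have e2 : (∏ i, (if i < a then z i 0 else if i = a then 1 else z i 1)) =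
          ∏ i, (if i < a then z' i 0 else if i = a then 1 else z' i 1) := by
        refine Finset.prod_congr rfl fun i _ => ?_
        by_cases h2 : i = a
        · subst h2; simp
        · rw [h i h2]
      rw [e2]; ring
    · have e : ∀ w : Fin d → Fin 3 → ℂ, w a 2 = 0 → bterm a w = 0 := by
        intro w hw
        unfold bterm
        refine Finset.prod_eq_zero (Finset.mem_univ a) ?_
        simp [hw]
      rw [e z (h0 a haj), e z' (h0' a haj)]; ring
  · refine Finset.sum_congr rfl fun p _ => ?_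
    obtain ⟨⟨⟨a, b⟩, hab⟩, ty, κ⟩ := p
    simp only at hab ⊢
    have er : ∀ (c : Fin d), c ≠ j → (a = j ∨ b = j) → rest a b κ z = rest a b κ z' := by
      intro c _ hj
      unfold rest
      refine Finset.prod_congr rfl fun i _ => ?_
      by_cases hi : i = a ∨ i = b
      · simp [hi]
      · rw [if_neg hi, if_neg hi]
        have : i ≠ j := by
          rintro rfl
          apply hi
          rcases hj with hj | hj
          · exact Or.inl hj.symm
          · exact Or.inr hj.symm
        rw [h i this]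
    by_cases haj : a = j
    · have hbj : b ≠ j := fun hb => hab (haj.trans hb.symm)
      rw [er b hbj (Or.inl haj), ← h b hbj]
      subst haj
      cases ty <;> simp [phi, h0 b hbj] <;> ring
    · by_cases hbj : b = j
      · rw [er a haj (Or.inr hbj), ← h a haj]
        subst hbj
        cases ty <;> simp [phi, h0 a haj] <;> ring
      · have e1 : phi ty (z a) (z b) = 0 := by
          cases ty <;> simp [phi, h0 a haj, h0 b hbj]
        have e2 : phi ty (z' a) (z' b) = 0 := by
          cases ty <;> simp [phi, h0' a haj, h0' b hbj]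
        rw [e1, e2]; ring

theorem zero_off {d : ℕ} (τ : Par d → ℂ) (z : Fin d → Fin 3 → ℂ)
    (h0 : ∀ i, z i 2 = 0) : ev (genT τ) z = 0 := by
  rw [ev_genT]
  have e : ∀ a : Fin d, bterm a z = 0 := by
    intro a
    unfold bterm
    refine Finset.prod_eq_zero (Finset.mem_univ a) ?_
    simp [h0]
  rw [Finset.sum_eq_zero, Finset.sum_eq_zero, add_zero]
  · intro p _
    have : phi p.2.1 (z p.1.1.1) (z p.1.1.2) = 0 := by
      cases p.2.1 <;> simp [phi, h0]
    rw [this]; ring
  · intro a _
    rw [e a]; ring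

end Pool.Agent.Helper156.Subrank
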