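import Pool.Agent.Helper156.Sub.Gen

namespace Pool.Agent.Helper156.Subrank

open scoped BigOperators
open Filter

/-- the filter `t → 0` in `ℂ*` -/
noncomputable abbrev F0 : Filter ℂˣ := Filter.comap (fun t : ℂˣ => (t : ℂ)) (nhds 0)

instance F0_neBot : F0.NeBot := by
  rw [Filter.comap_neBot_iff]
  intro S hS
  obtain ⟨ε, hε, hb⟩ := Metric.mem_nhds_iff.mp hS
  have h1 : (((ε / 2 : ℝ)) : ℂ) ≠ 0 := by
    rw [Complex.ofReal_ne_zero]; positivity
  refine ⟨Units.mk0 _ h1, hb ?_⟩
  rw [Metric.mem_ball, dist_zero_right]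
  simp only [Units.val_mk0, Complex.norm_real, Real.norm_eq_abs]
  rw [abs_of_pos (by positivity)]; linarith

theorem tendsto_coe : Tendsto (fun t : ℂˣ => (t : ℂ)) F0 (nhds 0) := tendsto_comap

theorem tendsto_mul_left (s : ℂˣ) : Tendsto (fun t : ℂˣ => s * t) F0 F0 := by
  rw [tendsto_comap_iff]
  have := tendsto_coe.const_mul (s : ℂ)
  simpa [Function.comp_def] using this

theorem limit_fixed {d n : ℕ} (lam : ℂˣ →* Grp d n) (T L : Tensor d n)
    (h : LimZero lam T L) (s : ℂˣ) : act (lam s) L = L := by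
  have h1 : Tendsto (fun t : ℂˣ => act (lam (s * t)) T) F0 (nhds L) :=
    h.comp (tendsto_mul_left s)
  have h2 : Tendsto (fun t : ℂˣ => act (lam s) (act (lam t) T)) F0 (nhds (act (lam s) L)) :=
    ((continuous_act (lam s)).tendsto L).comp h
  have h3 : (fun t : ℂˣ => act (lam (s * t)) T) = fun t : ℂˣ => act (lam s) (act (lam t) T) := by
    funext t
    rw [map_mul, act_mul]
  rw [h3] at h1
  exact tendsto_nhds_unique h2 h1

theorem ev_unit {d n : ℕ} (r : ℕ) (z : Fin d → Fin n → ℂ) :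
    ev (unitTensor d n r) z = ∑ i : Fin n, if (i : ℕ) < r then ∏ j, z j i else 0 := by
  unfold ev unitTensor
  simp only [Finset.mul_sum]
  rw [Finset.sum_comm]
  refine Finset.sum_congr rfl fun i _ => ?_
  by_cases hi : (i : ℕ) < r
  · simp only [if_pos hi]
    simp only [← Finset.prod_mul_distrib]
    rw [← prod_sum_eq (fun j k => z j k * (if k = i then (1 : ℂ) else 0))]
    refine Finset.prod_congr rfl fun j _ => ?_
    simp
  · simp [hi]

theorem unit_nonconst {d n : ℕ} (r : ℕ) (κ : Fin d → Fin n)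
    (h : unitTensor d n r κ ≠ 0) : ∃ k : Fin n, (k : ℕ) < r ∧ ∀ j, κ j = k := by
  by_contra hc
  push Not at hc
  apply h
  unfold unitTensor
  refine Finset.sum_eq_zero fun i _ => ?_
  split_ifs with hi
  · obtain ⟨j, hj⟩ := hc i hi
    exact Finset.prod_eq_zero (Finset.mem_univ j) (if_neg hj)
  · rfl

/-- a column of an invertible matrix is nonzero -/
theorem col_ne_zero {n : ℕ} (g : Matrix.GeneralLinearGroup (Fin n) ℂ) (i : Fin n) :
    ∃ k, (g : Matrix (Fin n) (Fin n) ℂ) k i ≠ 0 := by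
  by_contra h
  push Not at h
  have h1 : ((g⁻¹ * g : Matrix.GeneralLinearGroup (Fin n) ℂ) : Matrix (Fin n) (Fin n) ℂ) i i = 1 := by
    rw [inv_mul_cancel]; simp
  rw [Matrix.GeneralLinearGroup.coe_mul, Matrix.mul_apply] at h1
  rw [Finset.sum_eq_zero] at h1
  · exact zero_ne_one h1
  · intro k _
    rw [h k, mul_zero]

theorem mulVec_inj {n : ℕ} (g : Matrix.GeneralLinearGroup (Fin n) ℂ) (c : Fin n → ℂ)
    (h : ∀ m, ∑ i, (g : Matrix (Fin n) (Fin n) ℂ) m i * c i = 0) : c = 0 := by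
  have h1 : Matrix.mulVec (g : Matrix (Fin n) (Fin n) ℂ) c = 0 := by
    funext m; exact h m
  have h2 : Matrix.mulVec ((g⁻¹ : Matrix.GeneralLinearGroup (Fin n) ℂ) : Matrix (Fin n) (Fin n) ℂ)
      (Matrix.mulVec (g : Matrix (Fin n) (Fin n) ℂ) c) = 0 := by
    rw [h1, Matrix.mulVec_zero]
  rw [Matrix.mulVec_mulVec, ← Matrix.GeneralLinearGroup.coe_mul, inv_mul_cancel] at h2
  simpa using h2

theorem choice_const {d n r : ℕ} (hd : 3 ≤ d) (B : Grp d n)
    (hB : act B (unitTensor d n r) = unitTensor d n r) (i : Fin n) (hi : (i : ℕ) < r)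
    (e : Fin d → Fin n) (he : ∀ j, (B j : Matrix (Fin n) (Fin n) ℂ) (e j) i ≠ 0) :
    ∃ k : Fin n, (k : ℕ) < r ∧ ∀ j, e j = k := by
  classical
  have step : ∀ j0 : Fin d, ∃ k : Fin n, (k : ℕ) < r ∧ ∀ j, j ≠ j0 → e j = k := by
    intro j0
    by_contra hc
    push Not at hc
    have hzero : ∀ m, unitTensor d n r (Function.update e j0 m) = 0 := by
      intro m
      by_contra h
      obtain ⟨k, hk, h2⟩ := unit_nonconst r _ h
      obtain ⟨j, hj, h3⟩ := hc k hk
      apply h3
      have := h2 j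
      rwa [Function.update_of_ne hj] at this
    have h1 : (fun i : Fin n => if (i : ℕ) < r then
        ∏ j ∈ Finset.univ.erase j0, (B j : Matrix (Fin n) (Fin n) ℂ) (e j) i else 0) = 0 := by
      apply mulVec_inj (B j0)
      intro m
      have h2 := hzero m
      rw [← hB, act_apply, ev_unit] at h2
      refine Eq.trans ?_ h2
      refine Finset.sum_congr rfl fun i' _ => ?_
      by_cases hi' : (i' : ℕ) < r
      · rw [if_pos hi', if_pos hi', ← Finset.mul_prod_erase _ _ (Finset.mem_univ j0)]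
        rw [Function.update_self]
        congr 1
        refine Finset.prod_congr rfl fun j hj => ?_
        rw [Function.update_of_ne (Finset.ne_of_mem_erase hj)]
      · rw [if_neg hi', if_neg hi', mul_zero]
    have h3 := congrFun h1 i
    simp only [if_pos hi, Pi.zero_apply] at h3
    rw [Finset.prod_eq_zero_iff] at h3
    obtain ⟨j, _, hj⟩ := h3
    exact he j hj
  obtain ⟨k, hk, h1⟩ := step ⟨0, by omega⟩
  obtain ⟨k', hk', h2⟩ := step ⟨1, by omega⟩
  have h3 : k = k' := by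
    rw [← h1 ⟨2, by omega⟩ (by simp [Fin.ext_iff]), ← h2 ⟨2, by omega⟩ (by simp [Fin.ext_iff])]
  refine ⟨k, hk, fun j => ?_⟩
  by_cases hj : j = ⟨0, by omega⟩
  · rw [h3]; exact h2 j (by rw [hj]; simp [Fin.ext_iff])
  · exact h1 j hj

theorem mono_support {d n r : ℕ} (hd : 3 ≤ d) (B : Grp d n)
    (hB : act B (unitTensor d n r) = unitTensor d n r) (i : Fin n) (hi : (i : ℕ) < r) :
    ∃ k : Fin n, (k : ℕ) < r ∧
      ∀ (j : Fin d) (k' : Fin n), (B j : Matrix (Fin n) (Fin n) ℂ) k' i ≠ 0 → k' = k := by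
  classical
  choose e he using fun j => col_ne_zero (B j) i
  obtain ⟨k, hk, h1⟩ := choice_const hd B hB i hi e he
  refine ⟨k, hk, fun j k' hk' => ?_⟩
  obtain ⟨k2, _, h2⟩ := choice_const hd B hB i hi (Function.update e j k') (by
    intro j'
    by_cases h : j' = j
    · subst h; rwa [Function.update_self]
    · rw [Function.update_of_ne h]; exact he j')
  have h3 : k' = k2 := by
    have := h2 j; rwa [Function.update_self] at this
  obtain ⟨j', hj'⟩ : ∃ j' : Fin d, j' ≠ j := by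
    have : Nontrivial (Fin d) := Fin.nontrivial_iff_two_le.mpr (by omega)
    exact exists_ne j
  have h4 := h2 j'
  rw [Function.update_of_ne hj', h1 j'] at h4
  rw [h3, ← h4]

/-- the columns `i < r` are eigenvectors -/
theorem eigen {d n r : ℕ} (hd : 3 ≤ d) (B : ℂˣ →* Grp d n)
    (hB : ∀ s, act (B s) (unitTensor d n r) = unitTensor d n r)
    (s : ℂˣ) (j : Fin d) (i : Fin n) (hi : (i : ℕ) < r) (k : Fin n) (hk : k ≠ i) :
    (B s j : Matrix (Fin n) (Fin n) ℂ) k i = 0 := by
  classical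
  let X := {i : Fin n // (i : ℕ) < r}
  have hex : ∀ (s : ℂˣ) (i : X), ∃ k : X, ∀ (j : Fin d) (k' : Fin n),
      (B s j : Matrix (Fin n) (Fin n) ℂ) k' i ≠ 0 → k' = k := by
    intro s i
    obtain ⟨k, hk, h⟩ := mono_support hd (B s) (hB s) i i.2
    exact ⟨⟨k, hk⟩, h⟩
  choose π hπ using hex
  have hmul : ∀ s t i, π (s * t) i = π s (π t i) := by
    intro s t i
    obtain ⟨k', hk'⟩ := col_ne_zero (B (s * t) j) i
    have h1 := hπ (s * t) i j k' hk'
    have h2 : (B (s * t) j : Matrix (Fin n) (Fin n) ℂ) k' i =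
        (B s j : Matrix (Fin n) (Fin n) ℂ) k' (π t i) *
          (B t j : Matrix (Fin n) (Fin n) ℂ) (π t i) i := by
      rw [map_mul, Pi.mul_apply, Matrix.GeneralLinearGroup.coe_mul, Matrix.mul_apply]
      rw [Finset.sum_eq_single (π t i : Fin n)]
      · intro m _ hm
        have : (B t j : Matrix (Fin n) (Fin n) ℂ) m i = 0 := by
          by_contra h
          exact hm (hπ t i j m h)
        rw [this, mul_zero]
      · simp
    rw [h2] at hk'
    have h3 := hπ s (π t i) j k' (left_ne_zero_of_mul hk')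
    exact Subtype.ext (h1.symm.trans h3)
  have hone : ∀ i, π 1 i = i := by
    intro i
    have h1 : (B 1 j : Matrix (Fin n) (Fin n) ℂ) i i ≠ 0 := by
      rw [map_one, Pi.one_apply, Matrix.GeneralLinearGroup.coe_one, Matrix.one_apply_eq]
      exact one_ne_zero
    exact Subtype.ext (hπ 1 i j i h1).symm
  let f : ℂˣ →* Equiv.Perm X :=
    { toFun := fun s => ⟨π s, π s⁻¹, fun i => by rw [← hmul, inv_mul_cancel, hone],
        fun i => by rw [← hmul, mul_inv_cancel, hone]⟩
      map_one' := by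
        ext i; simp [hone]
      map_mul' := by
        intro s t
        apply Equiv.ext
        intro i
        exact hmul s t i }
  have htriv : ∀ s, f s = 1 := by
    intro s
    obtain ⟨z, hz⟩ := IsAlgClosed.exists_pow_nat_eq (s : ℂ)
      (show 0 < Fintype.card (Equiv.Perm X) from Fintype.card_pos)
    have hz0 : z ≠ 0 := by
      rintro rfl
      rw [zero_pow Fintype.card_ne_zero] at hz
      exact s.ne_zero hz.symm
    have h1 : s = (Units.mk0 z hz0) ^ Fintype.card (Equiv.Perm X) := by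
      apply Units.ext
      rw [Units.val_pow_eq_pow_val, Units.val_mk0, hz]
    rw [h1, map_pow, pow_card_eq_one]
  by_contra h
  have h1 := hπ s ⟨i, hi⟩ j k h
  have h2 : π s ⟨i, hi⟩ = ⟨i, hi⟩ := by
    have := congrArg (fun p : Equiv.Perm X => p ⟨i, hi⟩) (htriv s)
    exact this
  rw [h2] at h1
  exact hk h1

/-- characters `t ↦ t^k` -/
def chi (k : ℤ) : ℂˣ →* ℂ := (Units.coeHom ℂ).comp (zpowGroupHom k)

theorem chi_apply (k : ℤ) (t : ℂˣ) : chi k t = ((t ^ k : ℂˣ) : ℂ) := rfl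

theorem chi_inj : Function.Injective chi := by
  intro k l h
  have h1 := congrArg (fun f : ℂˣ →* ℂ => f (Units.mk0 (2 : ℂ) two_ne_zero)) h
  simp only [chi_apply, Units.val_zpow_eq_zpow_val, Units.val_mk0] at h1
  have h2 : ((2 : ℝ) : ℂ) ^ k = ((2 : ℝ) : ℂ) ^ l := by simpa using h1
  have h3 : (2 : ℝ) ^ k = (2 : ℝ) ^ l := by exact_mod_cast h2
  exact zpow_right_injective₀ (by norm_num) (by norm_num) h3

theorem laurent_zero (K : Finset ℤ) (c : ℤ → ℂ)
    (h : ∀ s : ℂˣ, ∑ k ∈ K, ((s ^ k : ℂˣ) : ℂ) * c k = 0) : ∀ k ∈ K, c k = 0 := by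
  have h1 := (linearIndependent_monoidHom ℂˣ ℂ).comp chi chi_inj
  rw [linearIndependent_iff'] at h1
  refine h1 K c ?_
  funext s
  rw [Finset.sum_apply, Pi.zero_apply, ← h s]
  refine Finset.sum_congr rfl fun k _ => ?_
  simp only [Function.comp_apply, Pi.smul_apply, smul_eq_mul, chi_apply]
  ring

theorem scalar_limit (m : ℤ) (c l : ℂ)
    (h : Tendsto (fun t : ℂˣ => ((t ^ m : ℂˣ) : ℂ) * c) F0 (nhds l)) :
    (0 < m ∧ l = 0) ∨ (m = 0 ∧ c = l) ∨ (m < 0 ∧ c = 0 ∧ l = 0) := by
  have hpow : ∀ k : ℕ, 0 < k → Tendsto (fun t : ℂˣ => (t : ℂ) ^ k) F0 (nhds 0) := by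
    intro k hk
    have := tendsto_coe.pow k
    rwa [zero_pow hk.ne'] at this
  rcases lt_trichotomy m 0 with hm | hm | hm
  · right; right
    obtain ⟨k, hk⟩ : ∃ k : ℕ, m = - (k : ℤ) := ⟨m.natAbs, by omega⟩
    have hk0 : 0 < k := by omega
    have h1 := (hpow k hk0).mul h
    have h2 : (fun t : ℂˣ => (t : ℂ) ^ k * (((t ^ m : ℂˣ) : ℂ) * c)) = fun _ => c := by
      funext t
      rw [hk, zpow_neg, zpow_natCast, ← mul_assoc]
      have : (t : ℂ) ^ k * (((t ^ k)⁻¹ : ℂˣ) : ℂ) = 1 := by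
        rw [← Units.val_pow_eq_pow_val, ← Units.val_mul, mul_inv_cancel, Units.val_one]
      rw [this, one_mul]
    rw [h2, zero_mul] at h1
    have hc : c = 0 := tendsto_nhds_unique tendsto_const_nhds h1
    refine ⟨hm, hc, ?_⟩
    rw [hc] at h
    simp only [mul_zero] at h
    exact tendsto_nhds_unique h tendsto_const_nhds
  · right; left
    refine ⟨hm, ?_⟩
    rw [hm] at h
    simp only [zpow_zero, Units.val_one, one_mul] at h
    exact tendsto_nhds_unique tendsto_const_nhds h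
  · left
    refine ⟨hm, ?_⟩
    obtain ⟨k, hk⟩ : ∃ k : ℕ, m = (k : ℤ) := ⟨m.natAbs, by omega⟩
    have hk0 : 0 < k := by omega
    have h1 := (hpow k hk0).mul_const c
    rw [zero_mul] at h1
    rw [hk] at h
    simp only [zpow_natCast, Units.val_pow_eq_pow_val] at h
    exact tendsto_nhds_unique h h1

end Pool.Agent.Helper156.Subrank
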