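import Pool.Agent.Helper156.Sub.HM

namespace Pool.Agent.Helper156.Subrank

open scoped BigOperators
open Filter

theorem zpow_sum' {A : Type} (s : Finset A) (t : ℂˣ) (c : A → ℤ) :
    t ^ (∑ j ∈ s, c j) = ∏ j ∈ s, t ^ (c j) := by
  classical
  induction s using Finset.induction_on with
  | empty => simp
  | insert a s ha ih => rw [Finset.sum_insert ha, Finset.prod_insert ha, zpow_add, ih]

/-- eigenfunctionals of a one-parameter subgroup fixing `I_r` -/
theorem eigenrows {d n r : ℕ} (hd : 3 ≤ d) (B : ℂˣ →* Grp d n) (hone : IsOnePS B)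
    (hB : ∀ s, act (B s) (unitTensor d n r) = unitTensor d n r)
    (j : Fin d) (i : Fin n) (hi : (i : ℕ) < r) :
    ∃ (a : ℤ) (w : Fin n → ℂ),
      (∀ t : ℂˣ, Matrix.vecMul w (B t j : Matrix (Fin n) (Fin n) ℂ) = ((t ^ a : ℂˣ) : ℂ) • w) ∧
      (∀ i' : Fin n, (i' : ℕ) < r → w i' = if i' = i then 1 else 0) := by
  classical
  obtain ⟨K, N, hN⟩ := hone j
  -- `N_k B_t = t^k N_k`
  have h1 : ∀ k ∈ K, ∀ (t : ℂˣ) (x y : Fin n),
      (N k * (B t j : Matrix (Fin n) (Fin n) ℂ)) x y = ((t ^ k : ℂˣ) : ℂ) * N k x y := by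
    intro k hk t x y
    have h2 := laurent_zero K (fun k => (N k * (B t j : Matrix (Fin n) (Fin n) ℂ)) x y -
      ((t ^ k : ℂˣ) : ℂ) * N k x y) (by
        intro s
        have h3 : (B (s * t) j : Matrix (Fin n) (Fin n) ℂ) x y =
            ((B s j : Matrix (Fin n) (Fin n) ℂ) * (B t j : Matrix (Fin n) (Fin n) ℂ)) x y := by
          rw [map_mul, Pi.mul_apply, Matrix.GeneralLinearGroup.coe_mul]
        rw [hN (s * t), hN s, Finset.sum_mul] at h3
        simp only [Matrix.sum_apply, Matrix.smul_apply, smul_eq_mul, Matrix.smul_mul] at h3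
        simp only [mul_sub, Finset.sum_sub_distrib]
        rw [sub_eq_zero, ← h3]
        refine Finset.sum_congr rfl fun k _ => ?_
        rw [mul_zpow, Units.val_mul]; ring) k hk
    exact sub_eq_zero.mp h2
  -- exponents
  have hexp : ∀ i : Fin n, (i : ℕ) < r → ∃ a ∈ K, ∀ t : ℂˣ,
      (B t j : Matrix (Fin n) (Fin n) ℂ) i i = ((t ^ a : ℂˣ) : ℂ) := by
    intro i hi
    obtain ⟨a, ha, hne⟩ : ∃ a ∈ K, N a i i ≠ 0 := by
      by_contra hc
      push Not at hc
      have h2 : (B 1 j : Matrix (Fin n) (Fin n) ℂ) i i = 1 := by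
        rw [map_one, Pi.one_apply, Matrix.GeneralLinearGroup.coe_one, Matrix.one_apply_eq]
      rw [hN 1, Matrix.sum_apply, Finset.sum_eq_zero] at h2
      · exact zero_ne_one h2
      · intro k hk
        rw [Matrix.smul_apply, hc k hk, smul_zero]
    refine ⟨a, ha, fun t => ?_⟩
    have h2 := h1 a ha t i i
    rw [Matrix.mul_apply, Finset.sum_eq_single i] at h2
    · rw [mul_comm] at h2
      exact mul_right_cancel₀ hne h2
    · intro m _ hm
      rw [eigen hd B hB t j i hi m hm, mul_zero]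
    · simp
  obtain ⟨a, ha, hχ⟩ := hexp i hi
  refine ⟨a, fun m => N a i m, ?_, ?_⟩
  · intro t
    funext y
    exact h1 a ha t i y
  · intro i' hi'
    obtain ⟨a', ha', hχ'⟩ := hexp i' hi'
    have h2 := laurent_zero K (fun k => N k i i' - (if k = a' then (if i' = i then 1 else 0) else 0))
      (by
        intro s
        have h3 : (B s j : Matrix (Fin n) (Fin n) ℂ) i i' =
            ((s ^ a' : ℂˣ) : ℂ) * (if i' = i then 1 else 0) := by
          by_cases h : i' = i
          · subst h
            rw [hχ' s]; simp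
          · rw [eigen hd B hB s j i' hi' i (Ne.symm h), if_neg h, mul_zero]
        rw [hN s, Matrix.sum_apply] at h3
        simp only [Matrix.smul_apply, smul_eq_mul] at h3
        simp only [mul_sub, Finset.sum_sub_distrib]
        rw [h3, sub_eq_zero, Finset.sum_eq_single a']
        · simp
        · intro k _ hk
          rw [if_neg hk, mul_zero]
        · intro h; exact absurd ha' h) a ha
    have h2' : N a i i' - (if a = a' then (if i' = i then 1 else 0) else 0) = 0 := h2
    rw [sub_eq_zero] at h2'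
    change N a i i' = _
    rw [h2']
    by_cases h : i' = i
    · subst h
      have haa : a = a' := by
        apply chi_inj
        ext s
        rw [chi_apply, chi_apply, ← hχ s, ← hχ' s]
      rw [if_pos haa]
    · rw [if_neg h]; simp

theorem hm_pairs {d n r : ℕ} (hd : 3 ≤ d) (hr2 : 2 ≤ r) (hrn : r ≤ n)
    (B : ℂˣ →* Grp d n) (hone : IsOnePS B) (T : Tensor d n)
    (hlim : LimZero B T (unitTensor d n r)) (i0 i1 : Fin n) (h0 : (i0 : ℕ) = 0)
    (h1 : (i1 : ℕ) = 1) :
    ∃ u v : Fin d → Fin n → ℂ,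
      (∀ j, u j i0 = 1 ∧ v j i0 = 0 ∧ u j i1 = 0 ∧ v j i1 = 1) ∧
      ev T u ≠ 0 ∧ ev T v ≠ 0 ∧
      ∀ σ : Fin d → Bool, (∃ j, σ j = true) → (∃ j, σ j = false) →
        ev T (fun j => if σ j then u j else v j) = 0 ∨
        ev T (fun j => if σ j then v j else u j) = 0 := by
  classical
  have hfix := limit_fixed B T _ hlim
  have hi0 : (i0 : ℕ) < r := by omega
  have hi1 : (i1 : ℕ) < r := by omega
  have hne : i0 ≠ i1 := by
    intro h; rw [h] at h0; omega
  choose a u hu1 hu2 using fun j => eigenrows hd B hone hfix j i0 hi0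
  choose b v hv1 hv2 using fun j => eigenrows hd B hone hfix j i1 hi1
  -- the basic limit
  have hbasic : ∀ (z : Fin d → Fin n → ℂ) (c : Fin d → ℤ),
      (∀ j (t : ℂˣ), Matrix.vecMul (z j) (B t j : Matrix (Fin n) (Fin n) ℂ) =
        ((t ^ (c j) : ℂˣ) : ℂ) • z j) →
      Tendsto (fun t : ℂˣ => ((t ^ (∑ j, c j) : ℂˣ) : ℂ) * ev T z) F0
        (nhds (ev (unitTensor d n r) z)) := by
    intro z c hz
    have h2 := ((continuous_ev z).tendsto (unitTensor d n r)).comp hlim
    refine h2.congr fun t => ?_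
    rw [Function.comp_apply, ev_act]
    have h3 : (fun j => Matrix.vecMul (z j) (B t j : Matrix (Fin n) (Fin n) ℂ)) =
        fun j => ((t ^ (c j) : ℂˣ) : ℂ) • z j := funext fun j => hz j t
    rw [h3]
    unfold ev
    rw [Finset.mul_sum]
    refine Finset.sum_congr rfl fun κ _ => ?_
    simp only [Pi.smul_apply, smul_eq_mul]
    rw [Finset.prod_mul_distrib, ← mul_assoc]
    congr 2
    rw [← Units.coe_prod, zpow_sum']
  have hU : ev (unitTensor d n r) u = 1 := by
    rw [ev_unit, Finset.sum_eq_single i0]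
    · rw [if_pos hi0]
      exact Finset.prod_eq_one fun j _ => by rw [hu2 j i0 hi0, if_pos rfl]
    · intro i _ hi
      split_ifs with hir
      · refine Finset.prod_eq_zero (Finset.mem_univ ⟨0, by omega⟩) ?_
        rw [hu2 _ i hir, if_neg hi]
      · rfl
    · simp
  have hV : ev (unitTensor d n r) v = 1 := by
    rw [ev_unit, Finset.sum_eq_single i1]
    · rw [if_pos hi1]
      exact Finset.prod_eq_one fun j _ => by rw [hv2 j i1 hi1, if_pos rfl]
    · intro i _ hi
      split_ifs with hir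
      · refine Finset.prod_eq_zero (Finset.mem_univ ⟨0, by omega⟩) ?_
        rw [hv2 _ i hir, if_neg hi]
      · rfl
    · simp
  have hmix : ∀ σ : Fin d → Bool, (∃ j, σ j = true) → (∃ j, σ j = false) →
      ev (unitTensor d n r) (fun j => if σ j then u j else v j) = 0 := by
    rintro σ ⟨j1, hj1⟩ ⟨j2, hj2⟩
    rw [ev_unit]
    refine Finset.sum_eq_zero fun i _ => ?_
    split_ifs with hir
    · by_cases h : i = i0
      · refine Finset.prod_eq_zero (Finset.mem_univ j2) ?_
        simp only [hj2, Bool.false_eq_true, if_false]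
        rw [hv2 _ i hir, if_neg (by rw [h]; exact hne)]
      · refine Finset.prod_eq_zero (Finset.mem_univ j1) ?_
        simp only [hj1, if_true]
        rw [hu2 _ i hir, if_neg h]
    · rfl
  have hA := scalar_limit _ _ _ (hbasic u a fun j t => hu1 j t)
  have hBB := scalar_limit _ _ _ (hbasic v b fun j t => hv1 j t)
  rw [hU] at hA
  rw [hV] at hBB
  obtain ⟨ha0, hTu⟩ : ∑ j, a j = 0 ∧ ev T u = 1 := by
    rcases hA with h | h | h
    · exact absurd h.2 one_ne_zero
    · exact h
    · exact absurd h.2.2 one_ne_zero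
  obtain ⟨hb0, hTv⟩ : ∑ j, b j = 0 ∧ ev T v = 1 := by
    rcases hBB with h | h | h
    · exact absurd h.2 one_ne_zero
    · exact h
    · exact absurd h.2.2 one_ne_zero
  refine ⟨u, v, fun j => ⟨?_, ?_, ?_, ?_⟩, ?_, ?_, ?_⟩
  · rw [hu2 j i0 hi0, if_pos rfl]
  · rw [hv2 j i0 hi0, if_neg hne]
  · rw [hu2 j i1 hi1, if_neg hne.symm]
  · rw [hv2 j i1 hi1, if_pos rfl]
  · rw [hTu]; exact one_ne_zero
  · rw [hTv]; exact one_ne_zero
  · intro σ ht hf
    have e1 := scalar_limit _ _ _ (hbasic (fun j => if σ j then u j else v j)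
      (fun j => if σ j then a j else b j) (by
        intro j t
        cases h : σ j
        · simp only [Bool.false_eq_true, if_false]; exact hv1 j t
        · simp only [if_true]; exact hu1 j t))
    have e2 := scalar_limit _ _ _ (hbasic (fun j => if σ j then v j else u j)
      (fun j => if σ j then b j else a j) (by
        intro j t
        cases h : σ j
        · simp only [Bool.false_eq_true, if_false]; exact hu1 j t
        · simp only [if_true]; exact hv1 j t))
    rw [hmix σ ht hf] at e1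
    have e3 : (fun j => if σ j then v j else u j) = fun j => if (!σ j) then u j else v j := by
      funext j; cases σ j <;> simp
    rw [e3] at e2 ⊢
    rw [hmix (fun j => !σ j) (by obtain ⟨j, hj⟩ := hf; exact ⟨j, by simp [hj]⟩)
      (by obtain ⟨j, hj⟩ := ht; exact ⟨j, by simp [hj]⟩)] at e2
    have e4 : (∑ j, if σ j then a j else b j) + (∑ j, if σ j then b j else a j) = 0 := by
      rw [← Finset.sum_add_distrib]
      have : ∀ j, ((if σ j then a j else b j) + (if σ j then b j else a j)) = a j + b j := by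
        intro j; cases σ j <;> simp [add_comm]
      rw [Finset.sum_congr rfl fun j _ => this j, Finset.sum_add_distrib, ha0, hb0, add_zero]
    rcases e1 with h | h | h
    · rcases e2 with h' | h' | h'
      · exfalso; omega
      · right; exact h'.2
      · right; exact h'.2.1
    · left; exact h.2
    · left; exact h.2.1

/-- The coordinate free form. -/
theorem hm_pairs' {d n r : ℕ} (hd : 3 ≤ d) (hr2 : 2 ≤ r) (hrn : r ≤ n)
    (lam : ℂˣ →* Grp d n) (hone : IsOnePS lam) (T : Tensor d n) (g : Grp d n)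
    (hlim : LimZero lam T (act g (unitTensor d n r))) (i0 i1 : Fin n) (h0 : (i0 : ℕ) = 0)
    (h1 : (i1 : ℕ) = 1) :
    ∃ u v x y : Fin d → Fin n → ℂ,
      (∀ j, ∑ i, u j i * x j i = 1) ∧ (∀ j, ∑ i, v j i * x j i = 0) ∧
      (∀ j, ∑ i, u j i * y j i = 0) ∧ (∀ j, ∑ i, v j i * y j i = 1) ∧
      ev T u ≠ 0 ∧ ev T v ≠ 0 ∧
      ∀ σ : Fin d → Bool, (∃ j, σ j = true) → (∃ j, σ j = false) →
        ev T (fun j => if σ j then u j else v j) = 0 ∨
        ev T (fun j => if σ j then v j else u j) = 0 := by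
  classical
  let B : ℂˣ →* Grp d n := (MulAut.conj g⁻¹).toMonoidHom.comp lam
  have hBt : ∀ t, B t = g⁻¹ * lam t * g := by
    intro t
    simp [B]
  have honeB : IsOnePS B := by
    intro j
    obtain ⟨K, M, hM⟩ := hone j
    refine ⟨K, fun k => ((g j)⁻¹ : Matrix.GeneralLinearGroup (Fin n) ℂ) * M k * (g j), ?_⟩
    intro t
    rw [hBt t]
    rw [Pi.mul_apply, Pi.mul_apply, Pi.inv_apply, Matrix.GeneralLinearGroup.coe_mul,
      Matrix.GeneralLinearGroup.coe_mul, hM t, Finset.mul_sum, Finset.sum_mul]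
    refine Finset.sum_congr rfl fun k _ => ?_
    rw [Matrix.mul_smul, Matrix.smul_mul]
  have hlimB : LimZero B (act g⁻¹ T) (unitTensor d n r) := by
    have h2 := ((continuous_act g⁻¹).tendsto (act g (unitTensor d n r))).comp hlim
    rw [← act_mul, inv_mul_cancel, act_one] at h2
    refine h2.congr fun t => ?_
    rw [Function.comp_apply, ← act_mul, ← act_mul, hBt t]
    congr 1
    rw [mul_assoc, mul_inv_cancel, mul_one]
  obtain ⟨u, v, huv, hu, hv, hS⟩ := hm_pairs hd hr2 hrn B honeB _ hlimB i0 i1 h0 h1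
  have hev : ∀ z : Fin d → Fin n → ℂ, ev (act g⁻¹ T) z =
      ev T (fun j => Matrix.vecMul (z j)
        ((g⁻¹ j : Matrix.GeneralLinearGroup (Fin n) ℂ) : Matrix (Fin n) (Fin n) ℂ)) :=
    fun z => ev_act _ _ _
  have hdot : ∀ (z : Fin n → ℂ) (j : Fin d) (i : Fin n),
      ∑ k, Matrix.vecMul z
        ((g⁻¹ j : Matrix.GeneralLinearGroup (Fin n) ℂ) : Matrix (Fin n) (Fin n) ℂ) k *
        (g j : Matrix (Fin n) (Fin n) ℂ) k i = z i := by
    intro z j i
    have h2 : Matrix.vecMul (Matrix.vecMul z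
        ((g⁻¹ j : Matrix.GeneralLinearGroup (Fin n) ℂ) : Matrix (Fin n) (Fin n) ℂ))
        (g j : Matrix (Fin n) (Fin n) ℂ) = z := by
      rw [Matrix.vecMul_vecMul, ← Matrix.GeneralLinearGroup.coe_mul, Pi.inv_apply,
        inv_mul_cancel, Matrix.GeneralLinearGroup.coe_one, Matrix.vecMul_one]
    exact congrFun h2 i
  refine ⟨fun j => Matrix.vecMul (u j)
        ((g⁻¹ j : Matrix.GeneralLinearGroup (Fin n) ℂ) : Matrix (Fin n) (Fin n) ℂ),
    fun j => Matrix.vecMul (v j)
        ((g⁻¹ j : Matrix.GeneralLinearGroup (Fin n) ℂ) : Matrix (Fin n) (Fin n) ℂ),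
    fun j k => (g j : Matrix (Fin n) (Fin n) ℂ) k i0,
    fun j k => (g j : Matrix (Fin n) (Fin n) ℂ) k i1, ?_, ?_, ?_, ?_, ?_, ?_, ?_⟩
  · intro j; rw [hdot]; exact (huv j).1
  · intro j; rw [hdot]; exact (huv j).2.1
  · intro j; rw [hdot]; exact (huv j).2.2.1
  · intro j; rw [hdot]; exact (huv j).2.2.2
  · rw [← hev]; exact hu
  · rw [← hev]; exact hv
  · intro σ ht hf
    rcases hS σ ht hf with h | h
    · left
      rw [hev] at h
      rw [← h]
      congr 1
      funext j
      cases σ j <;> simp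
    · right
      rw [hev] at h
      rw [← h]
      congr 1
      funext j
      cases σ j <;> simp

end Pool.Agent.Helper156.Subrank
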