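import Pool.Agent.Helper156.Sub.Count

namespace Pool.Agent.Helper156.Subrank

open scoped BigOperators

theorem card_two_fixed {d : ℕ} (a b : Fin d) (hab : a ≠ b) (α β : Bool) :
    4 * (Finset.univ.filter (fun σ : Fin d → Bool => σ a = α ∧ σ b = β)).card = 2 ^ d := by
  classical
  have h1 : (Finset.univ.filter (fun σ : Fin d → Bool => σ a = α ∧ σ b = β)) =
      Fintype.piFinset (fun j => if j = a then ({α} : Finset Bool) else if j = b then {β} else
        Finset.univ) := by
    ext σ
    simp only [Finset.mem_filter, Finset.mem_univ, true_and, Fintype.mem_piFinset]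
    constructor
    · rintro ⟨h1, h2⟩ j
      by_cases hja : j = a
      · subst hja; simp [h1]
      · by_cases hjb : j = b
        · subst hjb; simp [hja, h2]
        · simp [hja, hjb]
    · intro h
      refine ⟨?_, ?_⟩
      · have := h a; simpa using this
      · have := h b; simpa [hab.symm] using this
  rw [h1, Fintype.card_piFinset]
  have h2 : ∀ j : Fin d, (if j = a then (2 : ℕ) else 1) * ((if j = b then 2 else 1) *
      (if j = a then ({α} : Finset Bool) else if j = b then {β} else Finset.univ).card) = 2 := by
    intro j
    by_cases hja : j = a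
    · subst hja; simp [hab]
    · by_cases hjb : j = b
      · subst hjb; simp [hja]
      · simp [hja, hjb]
  have h3 : ∏ j : Fin d, ((if j = a then (2 : ℕ) else 1) * ((if j = b then 2 else 1) *
      (if j = a then ({α} : Finset Bool) else if j = b then {β} else Finset.univ).card)) =
      2 ^ d := by
    rw [Finset.prod_congr rfl fun j _ => h2 j]; simp
  rw [Finset.prod_mul_distrib, Finset.prod_mul_distrib, Finset.prod_ite_eq',
    Finset.prod_ite_eq'] at h3
  simp only [Finset.mem_univ, if_true] at h3
  rw [← h3]; ring

theorem no_pairs {d : ℕ} (hd : 2 ≤ d)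
    (hbig : 2 * (16 * d ^ 2 * (6 * d + 1) + 4 * d + 2) < 2 ^ d)
    (τ : Par d → ℂ) (hτ : AlgebraicIndependent ℚ τ)
    (u v n m : Fin d → Fin 3 → ℂ)
    (hnu : ∀ j, ∑ i, u j i * n j i = 1) (hnv : ∀ j, ∑ i, v j i * n j i = 0)
    (hmu : ∀ j, ∑ i, u j i * m j i = 0) (hmv : ∀ j, ∑ i, v j i * m j i = 1)
    (hu : ev (genT τ) u ≠ 0) (hv : ev (genT τ) v ≠ 0)
    (hS : ∀ σ : Fin d → Bool, (∃ j, σ j = true) → (∃ j, σ j = false) →
      ev (genT τ) (pick u v σ) = 0 ∨ ev (genT τ) (pick u v (fun j => !σ j)) = 0) : False := by
  classical
  by_cases hJ : ∃ a b : Fin d, a ≠ b ∧ (u a 2 ≠ 0 ∨ v a 2 ≠ 0) ∧ (u b 2 ≠ 0 ∨ v b 2 ≠ 0)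
  · obtain ⟨a0, b0, hab0, ha0, hb0⟩ := hJ
    obtain ⟨ga, hga⟩ : ∃ g : Bool, (if g then u a0 else v a0) 2 ≠ 0 := by
      rcases ha0 with h | h
      · exact ⟨true, by simpa using h⟩
      · exact ⟨false, by simpa using h⟩
    obtain ⟨gb, hgb⟩ : ∃ g : Bool, (if g then u b0 else v b0) 2 ≠ 0 := by
      rcases hb0 with h | h
      · exact ⟨true, by simpa using h⟩
      · exact ⟨false, by simpa using h⟩
    set S : Finset (Fin d → Bool) :=
      Finset.univ.filter (fun σ => ev (genT τ) (pick u v σ) = 0) with hSdef
    -- lower bound
    have C1 : 2 ^ d ≤ 2 * S.card + 2 := by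
      have hcov : (Finset.univ : Finset (Fin d → Bool)) ⊆
          (S ∪ S.image (fun σ j => !σ j)) ∪ {fun _ => true, fun _ => false} := by
        intro σ _
        simp only [Finset.mem_union, Finset.mem_insert, Finset.mem_singleton]
        by_cases h1 : ∃ j, σ j = true
        · by_cases h2 : ∃ j, σ j = false
          · left
            rcases hS σ h1 h2 with h | h
            · left; simp [hSdef, h]
            · right
              rw [Finset.mem_image]
              refine ⟨fun j => !σ j, by simp [hSdef, h], ?_⟩
              funext j; simp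
          · right; left
            funext j
            by_contra h
            exact h2 ⟨j, by simpa using h⟩
        · right; right
          funext j
          by_contra h
          exact h1 ⟨j, by simpa using h⟩
      have h1 := Finset.card_le_card hcov
      rw [Finset.card_univ, Fintype.card_fun, Fintype.card_bool, Fintype.card_fin] at h1
      have h2 := Finset.card_union_le (S ∪ S.image (fun σ j => !σ j))
        {(fun _ => true : Fin d → Bool), fun _ => false}
      have h3 := Finset.card_union_le S (S.image (fun σ j => !σ j))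
      have h4 : (S.image (fun σ j => !σ j)).card ≤ S.card := Finset.card_image_le
      have h5 : ({(fun _ => true : Fin d → Bool), fun _ => false} : Finset _).card ≤ 2 :=
        Finset.card_le_two
      omega
    -- classes
    set I : Finset (Fin d × Fin d × Bool × Bool × Bool) := Finset.univ.filter (fun q =>
      q.1 ≠ q.2.1 ∧ phi q.2.2.1 (if q.2.2.2.1 then u q.1 else v q.1)
        (if q.2.2.2.2 then u q.2.1 else v q.2.1) ≠ 0) with hI
    set bad0 : Finset (Fin d → Bool) :=
      Finset.univ.filter (fun σ => σ a0 = !ga ∧ σ b0 = !gb) with hbad0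
    set bt : Fin d → Bool := fun b => decide (u b 2 = 0 ∧ u b 0 + u b 1 = 0) with hbt
    set bad1 : Finset (Fin d → Bool) := (Finset.univ : Finset (Fin d × Bool)).image
      (fun q b => if b = q.1 then q.2 else bt b) with hbad1
    have hcov : S ⊆ (I.biUnion (fun q => S.filter (fun σ => σ q.1 = q.2.2.2.1 ∧
        σ q.2.1 = q.2.2.2.2))) ∪ (bad0 ∪ bad1) := by
      intro σ hσ
      simp only [Finset.mem_union]
      by_cases hφ : ∃ a b : Fin d, ∃ ty : Bool, a ≠ b ∧
          phi ty (pick u v σ a) (pick u v σ b) ≠ 0
      · obtain ⟨a, b, ty, hab, h⟩ := hφ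
        left
        rw [Finset.mem_biUnion]
        refine ⟨(a, b, ty, σ a, σ b), ?_, ?_⟩
        · rw [hI, Finset.mem_filter]
          exact ⟨Finset.mem_univ _, hab, h⟩
        · rw [Finset.mem_filter]; exact ⟨hσ, rfl, rfl⟩
      · push Not at hφ
        right
        by_cases hz : ∀ j, pick u v σ j 2 = 0
        · left
          rw [hbad0, Finset.mem_filter]
          refine ⟨Finset.mem_univ _, ?_, ?_⟩
          · by_contra hc
            have e : σ a0 = ga := by
              cases h1 : σ a0 <;> cases h2 : ga <;> simp_all
            apply hga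
            rw [← e]; exact hz a0
          · by_contra hc
            have e : σ b0 = gb := by
              cases h1 : σ b0 <;> cases h2 : gb <;> simp_all
            apply hgb
            rw [← e]; exact hz b0
        · right
          push Not at hz
          obtain ⟨j, hj⟩ := hz
          rw [hbad1, Finset.mem_image]
          refine ⟨(j, σ j), Finset.mem_univ _, ?_⟩
          funext b
          simp only
          by_cases hbj : b = j
          · rw [if_pos hbj, hbj]
          · rw [if_neg hbj]
            have h1 := hφ j b false (Ne.symm hbj)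
            have h2 := hφ j b true (Ne.symm hbj)
            simp only [phi, Bool.false_eq_true, if_false, if_true] at h1 h2
            have h3 : pick u v σ b 2 = 0 := (mul_eq_zero.mp h1).resolve_left hj
            rw [h3, mul_zero, sub_zero] at h2
            have h4 : pick u v σ b 0 + pick u v σ b 1 = 0 := (mul_eq_zero.mp h2).resolve_left hj
            cases hσb : σ b
            · simp only [pick, hσb, Bool.false_eq_true, if_false] at h3 h4
              simp only [hbt, decide_eq_false_iff_not]
              rintro ⟨h5, h6⟩
              have e1 := hnu b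
              have e2 := hnv b
              have e3 := hmv b
              rw [Fin.sum_univ_three] at e1 e2 e3
              rw [h3] at e2 e3
              rw [h5] at e1
              have e4 : v b 1 = - v b 0 := by linear_combination h4
              have e5 : u b 1 = - u b 0 := by linear_combination h6
              rw [e4] at e2 e3
              rw [e5] at e1
              have e6 : v b 0 * (n b 0 - n b 1) = 0 := by linear_combination e2
              have e7 : u b 0 * (n b 0 - n b 1) = 1 := by linear_combination e1
              have e8 : v b 0 * (m b 0 - m b 1) = 1 := by linear_combination e3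
              rcases mul_eq_zero.mp e6 with h | h
              · rw [h] at e8; simp at e8
              · rw [h] at e7; simp at e7
            · simp only [pick, hσb, if_true] at h3 h4
              simp only [hbt, decide_eq_true_eq]
              exact ⟨h3, h4⟩
    have hcard := Finset.card_le_card hcov
    have hc1 := Finset.card_union_le (I.biUnion (fun q => S.filter (fun σ => σ q.1 = q.2.2.2.1 ∧
        σ q.2.1 = q.2.2.2.2))) (bad0 ∪ bad1)
    have hc2 := Finset.card_union_le bad0 bad1
    have hc3 : (I.biUnion (fun q => S.filter (fun σ => σ q.1 = q.2.2.2.1 ∧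
        σ q.2.1 = q.2.2.2.2))).card ≤ I.card * (6 * d + 1) := by
      refine Finset.card_biUnion_le_card_mul _ _ _ fun q hq => ?_
      rw [hI, Finset.mem_filter] at hq
      refine class_bound τ hτ u v n m hnu hnv hmu hmv q.1 q.2.1 hq.2.1 q.2.2.1 q.2.2.2.1
        q.2.2.2.2 hq.2.2 _ fun σ hσ => ?_
      rw [Finset.mem_filter, hSdef, Finset.mem_filter] at hσ
      exact ⟨hσ.2.1, hσ.2.2, hσ.1.2⟩
    have hc4 : I.card ≤ 8 * d ^ 2 := by
      refine (Finset.card_le_univ _).trans ?_
      simp only [Fintype.card_prod, Fintype.card_fin, Fintype.card_bool]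
      nlinarith
    have hc5 : 4 * bad0.card = 2 ^ d := card_two_fixed a0 b0 hab0 _ _
    have hc6 : bad1.card ≤ 2 * d := by
      refine Finset.card_image_le.trans ?_
      rw [Finset.card_univ, Fintype.card_prod, Fintype.card_fin, Fintype.card_bool]
      omega
    have hc7 : I.card * (6 * d + 1) ≤ 8 * d ^ 2 * (6 * d + 1) := Nat.mul_le_mul_right _ hc4
    have hc8 : 16 * d ^ 2 * (6 * d + 1) = 2 * (8 * d ^ 2 * (6 * d + 1)) := by ring
    rw [hc8] at hbig
    omega
  · push Not at hJ
    -- at most one index
    obtain ⟨j, hj⟩ : ∃ j, u j 2 ≠ 0 := by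
      by_contra h
      push Not at h
      exact hu (zero_off τ u h)
    obtain ⟨j', hj'⟩ : ∃ j, v j 2 ≠ 0 := by
      by_contra h
      push Not at h
      exact hv (zero_off τ v h)
    have hjj : j' = j := by
      by_contra h
      have := hJ j j' (Ne.symm h) (Or.inl hj)
      exact hj' this.2
    subst hjj
    have h0 : ∀ i, i ≠ j' → u i 2 = 0 ∧ v i 2 = 0 := fun i hi => hJ j' i (Ne.symm hi) (Or.inl hj)
    set σ : Fin d → Bool := fun i => decide (i ≠ j') with hσ
    have e1 := prop_off τ j' u (pick u v σ)
      (fun i hi => by simp [pick, hσ, hi]) (fun i hi => (h0 i hi).1)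
    have e2 := prop_off τ j' v (pick u v (fun i => !σ i))
      (fun i hi => by simp [pick, hσ, hi]) (fun i hi => (h0 i hi).2)
    have e3 : pick u v σ j' = v j' := by simp [pick, hσ]
    have e4 : pick u v (fun i => !σ i) j' = u j' := by simp [pick, hσ]
    rw [e3] at e1
    rw [e4] at e2
    obtain ⟨i, hi⟩ : ∃ i : Fin d, i ≠ j' := by
      have : Nontrivial (Fin d) := Fin.nontrivial_iff_two_le.mpr hd
      exact exists_ne j'
    rcases hS σ ⟨i, by simp [hσ, hi]⟩ ⟨j', by simp [hσ]⟩ with h | h
    · rw [h, mul_zero] at e1
      rcases mul_eq_zero.mp e1 with h1 | h1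
      · exact hj' h1
      · exact hu h1
    · rw [h, mul_zero] at e2
      rcases mul_eq_zero.mp e2 with h1 | h1
      · exact hj h1
      · exact hv h1

end Pool.Agent.Helper156.Subrank
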